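import Pool.Agent.Helper17.DF.Fast

set_option autoImplicit false

/-! Module DF-1: the recursor versions of the checker functions equal the structural ones. -/

namespace Pool.Agent.Helper17.CT

theorem andR_eq (x y : Bool) : andR x y = (x && y) := by
  cases x <;> cases y <;> rfl

theorem orR_eq (x y : Bool) : orR x y = (x || y) := by
  cases x <;> cases y <;> rfl

theorem allLR_eq {α : Type} (g : α → Bool) (l : List α) : allLR g l = allL g l := by
  induction l with
  | nil => rfl
  | cons a l ih =>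
    show andR (g a) (allLR g l) = (g a && allL g l)
    rw [ih, andR_eq]

theorem anyLR_eq {α : Type} (g : α → Bool) (l : List α) : anyLR g l = anyL g l := by
  induction l with
  | nil => rfl
  | cons a l ih =>
    show orR (g a) (anyLR g l) = (g a || anyL g l)
    rw [ih, orR_eq]

theorem allNR_eq (g : ℕ → Bool) (n : ℕ) : allNR g n = allN g n := by
  induction n with
  | zero => rfl
  | succ n ih =>
    show andR (g n) (allNR g n) = (g n && allN g n)
    rw [ih, andR_eq]

theorem boolRec_eq {α : Type} (b : Bool) (x y : α) :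
    (Bool.rec x y b : α) = cond b y x := by
  cases b <;> rfl

theorem trR_eq (F : Code) (u : ℕ → Bool) (K : ℕ → ℕ → Bool) (f x cov : ℕ) :
    trR F u K f x cov = (match tr F u f x cov with
      | none => false
      | some r => K r.1 r.2) := by
  induction f generalizing x cov with
  | zero => rfl
  | succ f ih =>
    have h1 : trR F u K (f + 1) x cov =
        (Nat.rec (trR F u K f (d6 F.E (Bool.rec (nx (nx x)) (nx x) (u (nx x))))
          (Nat.lor cov (Nat.shiftLeft 1 (Nat.div x 3))))
          (fun j _ => K j (Nat.lor cov (Nat.shiftLeft 1 (Nat.div x 3))))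
          (d4 F.P (Bool.rec (nx (nx x)) (nx x) (u (nx x)))) : Bool) := rfl
    have h2 : tr F u (f + 1) x cov = (match d4 F.P (oth u x) with
        | 0 => tr F u f (d6 F.E (oth u x)) (Nat.lor cov (Nat.shiftLeft 1 (Nat.div x 3)))
        | j + 1 => some (j, Nat.lor cov (Nat.shiftLeft 1 (Nat.div x 3)))) := rfl
    have h3 : (Bool.rec (nx (nx x)) (nx x) (u (nx x)) : ℕ) = oth u x := by
      rw [boolRec_eq]; rfl
    rw [h1, h2, h3]
    rcases hd : d4 F.P (oth u x) with _ | j
    · exact ih _ _
    · rfl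

theorem trsR_eq (F : Code) (u : ℕ → Bool) (K : ℕ → ℕ → Bool) (f j m cov : ℕ) :
    trsR F u K f j m cov = (match trs F u f j m cov with
      | none => false
      | some r => K r.1 r.2) := by
  induction f generalizing j m cov with
  | zero => rfl
  | succ f ih =>
    have h1 : trsR F u K (f + 1) j m cov =
        (Bool.rec (trsR F u K f (Nat.succ j) (Nat.lor m (Nat.shiftLeft j (Nat.mul 4 j))) cov)
          (trR F u (fun j' cov' => trsR F u K f (Nat.succ j)
            (Nat.lor m (Nat.shiftLeft j' (Nat.mul 4 j))) cov') F.n (d6 F.Q j) cov)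
          (u (d6 F.Q j)) : Bool) := rfl
    have h2 : trs F u (f + 1) j m cov = cond (u (d6 F.Q j))
        (match tr F u F.n (d6 F.Q j) cov with
          | none => none
          | some (j', cov') => trs F u f (Nat.succ j)
              (Nat.lor m (Nat.shiftLeft j' (Nat.mul 4 j))) cov')
        (trs F u f (Nat.succ j) (Nat.lor m (Nat.shiftLeft j (Nat.mul 4 j))) cov) := rfl
    rw [h1, h2]
    rcases hu : u (d6 F.Q j) with _ | _
    · exact ih _ _ _
    · show trR F u (fun j' cov' => trsR F u K f (Nat.succ j)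
            (Nat.lor m (Nat.shiftLeft j' (Nat.mul 4 j))) cov') F.n (d6 F.Q j) cov = _
      rw [trR_eq]
      rcases ht : tr F u F.n (d6 F.Q j) cov with _ | ⟨j', cov'⟩
      · rfl
      · exact ih _ _ _

theorem okSyR_eq (F : Code) (s : Sy) : okSyR F s = okSy F s := by
  unfold okSyR okSy
  rw [andR_eq, andR_eq, allNR_eq, allNR_eq, trsR_eq]
  have e1 : (fun v => (fun x =>
      (fun p q r => (Bool.rec (andR q r) (Bool.rec r (not r) q) p : Bool)) (tb s.T x)
        (tb s.T (Nat.succ x)) (tb s.T (Nat.succ (Nat.succ x)))) (Nat.mul 3 v)) =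
      (fun v => force (Nat.mul 3 v) fun x =>
      let p := tb s.T x; let q := tb s.T (Nat.succ x); let r := tb s.T (Nat.succ (Nat.succ x))
      cond p (cond q (not r) r) (and q r)) := by
    funext v
    show (Bool.rec (andR (tb s.T (Nat.succ (Nat.mul 3 v)))
      (tb s.T (Nat.succ (Nat.succ (Nat.mul 3 v)))))
      (Bool.rec (tb s.T (Nat.succ (Nat.succ (Nat.mul 3 v))))
        (not (tb s.T (Nat.succ (Nat.succ (Nat.mul 3 v))))) (tb s.T (Nat.succ (Nat.mul 3 v))))
      (tb s.T (Nat.mul 3 v)) : Bool) = cond (tb s.T (Nat.mul 3 v))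
      (cond (tb s.T (Nat.succ (Nat.mul 3 v))) (not (tb s.T (Nat.succ (Nat.succ (Nat.mul 3 v)))))
        (tb s.T (Nat.succ (Nat.succ (Nat.mul 3 v)))))
      (and (tb s.T (Nat.succ (Nat.mul 3 v))) (tb s.T (Nat.succ (Nat.succ (Nat.mul 3 v)))))
    cases tb s.T (Nat.mul 3 v) <;> cases tb s.T (Nat.succ (Nat.mul 3 v)) <;>
      cases tb s.T (Nat.succ (Nat.succ (Nat.mul 3 v))) <;> rfl
  have e2 : (fun x => (Bool.rec (Bool.rec (not (tb s.T x)) (tb s.T x)
        (tb s.U (Nat.pred (d4 F.P x))))
      (Bool.rec (not (tb s.T x)) (tb s.T x) (tb s.T (d6 F.E x)))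
        (Nat.beq (d4 F.P x) 0) : Bool)) =
      (fun x => cond (Nat.beq (d4 F.P x) 0) ((tb s.T (d6 F.E x)) == tb s.T x)
      (tb s.U (Nat.pred (d4 F.P x)) == tb s.T x)) := by
    funext x
    cases Nat.beq (d4 F.P x) 0 <;> cases tb s.T x <;> cases tb s.T (d6 F.E x) <;>
      cases tb s.U (Nat.pred (d4 F.P x)) <;> rfl
  rw [e1, e2]
  congr 2
  rcases trs F (fun x => tb s.T x) F.k 0 0 0 with _ | ⟨m, cov⟩
  · rfl
  · simp only [andR_eq]

theorem incovR_eq (F : Code) (G i : ℕ) : incovR F G i = incov F G i := by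
  unfold incovR incov
  rw [trsR_eq]
  rcases trs F (fun x => not (Nat.beq (d2 G x) i)) F.k 0 0 0 with _ | ⟨m, cov⟩
  · rfl
  · rfl

theorem zeroR_eq (T : TT) : zeroR T = T.zero := by
  induction T with
  | nil => rfl
  | leaf w => rfl
  | node u o s d hu ho hs hd =>
    show andR (zeroR u) (andR (zeroR o) (andR (zeroR s) (zeroR d))) =
      (u.zero && (o.zero && (s.zero && d.zero)))
    rw [hu, ho, hs, hd, andR_eq, andR_eq, andR_eq]

theorem foldR_eq (wd t x : ℕ) : foldR wd t x = fold wd t x := by
  induction t generalizing x with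
  | zero => rfl
  | succ t ih =>
    exact ih _

theorem orbR_eq (e : Bool) (m b x0 U f x acc : ℕ) :
    orbR e m b x0 U f x acc = (match orb m b x0 f x acc with
      | none => e
      | some r => Nat.beq r U) := by
  induction f generalizing x acc with
  | zero => rfl
  | succ f ih =>
    have h1 : orbR e m b x0 U (f + 1) x acc =
        (Bool.rec (orbR e m b x0 U f (d4 b (d4 m x))
            (Nat.lor (Nat.lor acc (Nat.shiftLeft 1 x)) (Nat.shiftLeft 1 (d4 m x))))
          (Nat.beq (Nat.lor (Nat.lor acc (Nat.shiftLeft 1 x)) (Nat.shiftLeft 1 (d4 m x))) U)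
          (Nat.beq (d4 b (d4 m x)) x0) : Bool) := rfl
    have h2 : orb m b x0 (f + 1) x acc = cond (Nat.beq (d4 b (d4 m x)) x0)
        (some (Nat.lor (Nat.lor acc (Nat.shiftLeft 1 x)) (Nat.shiftLeft 1 (d4 m x))))
        (orb m b x0 f (d4 b (d4 m x))
          (Nat.lor (Nat.lor acc (Nat.shiftLeft 1 x)) (Nat.shiftLeft 1 (d4 m x)))) := rfl
    rw [h1, h2]
    rcases hz : Nat.beq (d4 b (d4 m x)) x0 with _ | _
    · exact ih _ _
    · rfl

theorem singR_false (k m b U : ℕ) : singR false k m b U = sing' k m b U :=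
  orbR_eq false m b (Nat.log2 U) U k (Nat.log2 U) 0

theorem singR_true (k m b U : ℕ) : singR true k m b U = sing k m b U :=
  orbR_eq true m b (Nat.log2 U) U k (Nat.log2 U) 0

theorem blkR_eq (F : Code) (S : Tri') (U b : ℕ) : blkR F.k U b (S.get U 0) = blk F S U b := by
  unfold blk
  induction S.get U 0 with
  | nil => rfl
  | cons s l ih =>
    show orR (andR (Nat.beq s.U U) (singR false F.k s.m b U)) (blkR F.k U b l) =
      ((Nat.beq s.U U && sing' F.k s.m b U) || anyL (fun s => Nat.beq s.U U && sing' F.k s.m b U) l)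
    rw [ih, orR_eq, andR_eq, singR_false]

theorem dupR_eq (F : Code) (S : Tri') (T U b : ℕ) :
    dupR F.k T U b (S.get U 0) = dup F S T U b := by
  unfold dup
  induction S.get U 0 with
  | nil => rfl
  | cons s l ih =>
    show orR (andR (andR (Nat.beq s.U U) (not (Nat.beq s.T T))) (singR false F.k s.m b U))
        (dupR F.k T U b l) =
      (((Nat.beq s.U U && not (Nat.beq s.T T)) && sing' F.k s.m b U) ||
        anyL (fun s => (Nat.beq s.U U && not (Nat.beq s.T T)) && sing' F.k s.m b U) l)
    rw [ih, orR_eq, andR_eq, andR_eq, singR_false]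

theorem cstR_eq (F : Code) (G n : ℕ) : cstR F G n = cstG F G n := by
  induction n with
  | zero => rfl
  | succ n ih =>
    show andR (Nat.beq (d2 G (d6 F.Q n)) (d2 G (d6 F.Q 0))) (cstR F G n) = _
    rw [andR_eq, ih]
    rfl

end Pool.Agent.Helper17.CT
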